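import Mathlib
import Pool.Agent.H63Fed.Kuhn

set_option autoImplicit false

/-!
Parity of labels on the boundary of a triangulated cube: the mod 2 Stokes formula for sums over the
standard triangulation, in the form used for the non-existence of retractions of symmetric products
of a circle.
-/

namespace V11194.Ret

open H63Fed.Kuhn

/-- Sum over the simplices of the standard triangulation of a grid in the coordinates of a list,
the head of the list being the outermost coordinate. -/
def gl (m : ℕ) (p : ℕ → ℕ) : List ℕ → (List (ℕ → ℕ) → ZMod 2) → ZMod 2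
  | [], φ => φ [p]
  | k :: L, φ => ∑ t ∈ Finset.range m, gl m p L (fun l =>
      prism (fun v => Function.update v k t) (fun v => Function.update v k (t + 1)) l φ)

/-- The list `[k-1, …, 0]`. -/
def rng : ℕ → List ℕ
  | 0 => []
  | k + 1 => k :: rng k

theorem mem_rng (k i : ℕ) : i ∈ rng k ↔ i < k := by
  induction k with
  | zero => simp [rng]
  | succ k ih => simp only [rng, List.mem_cons, ih]; omega

theorem nodup_rng (k : ℕ) : (rng k).Nodup := by
  induction k with
  | zero => simp [rng]
  | succ k ih =>
    simp only [rng, List.nodup_cons, ih, and_true, mem_rng]; omega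

theorem toFinset_rng (k : ℕ) : (rng k).toFinset = Finset.range k := by
  ext i; simp [mem_rng]

theorem gl_rng (m : ℕ) (p : ℕ → ℕ) (k : ℕ) (φ : List (ℕ → ℕ) → ZMod 2) :
    gl m p (rng k) φ = grid m p k φ := by
  induction k generalizing φ with
  | zero => rfl
  | succ k ih =>
    simp only [rng, gl, grid]
    exact Finset.sum_congr rfl (fun t _ => ih _)

theorem gl_add (m : ℕ) (p : ℕ → ℕ) (L : List ℕ) (φ ψ : List (ℕ → ℕ) → ZMod 2) :
    gl m p L (fun l => φ l + ψ l) = gl m p L φ + gl m p L ψ := by
  induction L generalizing φ ψ with
  | nil => simp [gl]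
  | cons k L ih =>
    simp only [gl, prism_add]
    rw [← Finset.sum_add_distrib]
    exact Finset.sum_congr rfl (fun t _ => ih _ _)

theorem gl_zero (m : ℕ) (p : ℕ → ℕ) (L : List ℕ) (φ : List (ℕ → ℕ) → ZMod 2) (h : ∀ l, φ l = 0) :
    gl m p L φ = 0 := by
  have hφ : φ = fun l => φ l + φ l := by
    funext l
    rw [h l, add_zero]
  rw [hφ, gl_add, two_eq]

theorem gl_supp (m : ℕ) (p : ℕ → ℕ) (L : List ℕ) (φ : List (ℕ → ℕ) → ZMod 2)
    (h : gl m p L φ ≠ 0) :
    ∃ l, φ l ≠ 0 ∧ ∃ x : ℕ → ℕ, ∀ y ∈ l, ∀ i, y i = x i ∨ y i = x i + 1 := by
  induction L generalizing φ with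
  | nil =>
    refine ⟨[p], h, p, ?_⟩
    intro y hy
    rw [List.mem_singleton] at hy
    subst hy
    simp
  | cons k L ih =>
    simp only [gl] at h
    obtain ⟨t, ht, h1⟩ := Finset.exists_ne_zero_of_sum_ne_zero h
    obtain ⟨l, h2, x, h3⟩ := ih _ h1
    obtain ⟨l', h4, h5⟩ := prism_supp _ _ _ _ h2
    refine ⟨l', h4, Function.update x k t, ?_⟩
    intro y hy i
    obtain ⟨v, hv, e⟩ := h5 y hy
    have h6 := h3 v hv
    by_cases hik : i = k
    · subst hik
      rcases e with rfl | rfl <;> simp
    · rcases e with rfl | rfl <;> simp only [Function.update_of_ne hik] <;> exact h6 i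

theorem gl_congr_of_small (m : ℕ) (p : ℕ → ℕ) (L : List ℕ) (φ ψ : List (ℕ → ℕ) → ZMod 2)
    (h : ∀ l, (∃ x : ℕ → ℕ, ∀ y ∈ l, ∀ i, y i = x i ∨ y i = x i + 1) → φ l = ψ l) :
    gl m p L φ = gl m p L ψ := by
  by_contra hne
  have h1 : gl m p L (fun l => φ l + ψ l) ≠ 0 := by
    rw [gl_add]
    intro h2
    apply hne
    have h3 := two_eq (gl m p L ψ)
    linear_combination h2 - h3
  obtain ⟨l, h2, x, h3⟩ := gl_supp m p L _ h1
  apply h2
  rw [h l ⟨x, h3⟩]
  exact two_eq _

theorem prism_map {V V' W W' : Type*} (b t : V → W) (b' t' : V' → W') (g : V → V') (g' : W → W')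
    (hb : ∀ v, b' (g v) = g' (b v)) (ht : ∀ v, t' (g v) = g' (t v)) (l : List V)
    (φ : List W' → ZMod 2) :
    prism b' t' (l.map g) φ = prism b t l (fun l' => φ (l'.map g')) := by
  induction l generalizing φ with
  | nil => rfl
  | cons v l ih =>
    simp only [List.map_cons, prism, hb, ht]
    rw [ih (fun l' => φ (g' (b v) :: l'))]
    congr 3
    simp only [List.map_map]
    congr 2
    funext w
    exact ht w

/-- Stokes in the outermost direction. -/
theorem gl_del_cons (m : ℕ) (p : ℕ → ℕ) (k : ℕ) (L : List ℕ) (φ : List (ℕ → ℕ) → ZMod 2) :
    gl m p (k :: L) (fun l => del l φ) =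
      (∑ t ∈ Finset.range m, gl m p L (fun l => del l (fun l' =>
        prism (fun v => Function.update v k t) (fun v => Function.update v k (t + 1)) l' φ)))
      + (gl m p L (fun l => φ (l.map (fun v => Function.update v k m)))
      + gl m p L (fun l => φ (l.map (fun v => Function.update v k 0)))) := by
  have key : ∀ n : ℕ,
      (∑ t ∈ Finset.range n, gl m p L (fun l => prism (fun v => Function.update v k t)
        (fun v => Function.update v k (t + 1)) l (fun l' => del l' φ))) =
      (∑ t ∈ Finset.range n, gl m p L (fun l => del l (fun l' =>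
        prism (fun v => Function.update v k t) (fun v => Function.update v k (t + 1)) l' φ)))
      + (gl m p L (fun l => φ (l.map (fun v => Function.update v k n)))
      + gl m p L (fun l => φ (l.map (fun v => Function.update v k 0)))) := by
    intro n
    induction n with
    | zero =>
      simp only [Finset.range_zero, Finset.sum_empty, zero_add]
      exact (two_eq _).symm
    | succ n ih =>
      rw [Finset.sum_range_succ, Finset.sum_range_succ, ih]
      have h1 : (fun l => prism (fun v => Function.update v k n)
          (fun v => Function.update v k (n + 1)) l (fun l' => del l' φ)) =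
          fun l => (del l (fun l' => prism (fun v => Function.update v k n)
            (fun v => Function.update v k (n + 1)) l' φ) +
            φ (l.map (fun v => Function.update v k (n + 1)))) +
            φ (l.map (fun v => Function.update v k n)) := by
        funext l
        exact prism_del _ _ l φ
      rw [h1, gl_add, gl_add]
      have h2 := two_eq (gl m p L (fun l => φ (l.map (fun v => Function.update v k n))))
      linear_combination h2
  exact key m

/-- The mod 2 Stokes formula for the triangulated cube. -/
theorem gl_del (m : ℕ) (p : ℕ → ℕ) (L : List ℕ) (hL : L.Nodup) (φ : List (ℕ → ℕ) → ZMod 2)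
    (h0 : φ [] = 0) :
    gl m p L (fun l => del l φ) = ∑ i ∈ L.toFinset,
      (gl m p (L.erase i) (fun l => φ (l.map (fun v => Function.update v i m)))
      + gl m p (L.erase i) (fun l => φ (l.map (fun v => Function.update v i 0)))) := by
  induction L generalizing φ with
  | nil => simp [gl, del, h0]
  | cons k L ih =>
    rw [List.nodup_cons] at hL
    obtain ⟨hk, hL⟩ := hL
    rw [gl_del_cons]
    have h1 : ∀ t, gl m p L (fun l => del l (fun l' =>
        prism (fun v => Function.update v k t) (fun v => Function.update v k (t + 1)) l' φ)) =
        ∑ i ∈ L.toFinset,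
        (gl m p (L.erase i) (fun l => prism (fun v => Function.update v k t)
            (fun v => Function.update v k (t + 1)) l (fun l => φ (l.map (fun v => Function.update v i m))))
        + gl m p (L.erase i) (fun l => prism (fun v => Function.update v k t)
            (fun v => Function.update v k (t + 1)) l (fun l => φ (l.map (fun v => Function.update v i 0))))) := by
      intro t
      rw [ih hL _ rfl]
      refine Finset.sum_congr rfl ?_
      intro i hi
      rw [List.mem_toFinset] at hi
      have hik : i ≠ k := fun e => hk (e ▸ hi)
      have e : ∀ c, (fun l : List (ℕ → ℕ) => prism (fun v => Function.update v k t)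
          (fun v => Function.update v k (t + 1)) (l.map (fun v => Function.update v i c)) φ) =
          fun l => prism (fun v => Function.update v k t)
            (fun v => Function.update v k (t + 1)) l
              (fun l => φ (l.map (fun v => Function.update v i c))) := by
        intro c
        funext l
        refine prism_map _ _ _ _ _ _ ?_ ?_ l φ
        · intro v
          exact Function.update_comm hik _ _ _
        · intro v
          exact Function.update_comm hik _ _ _
      rw [e m, e 0]
    simp only [h1]
    rw [Finset.sum_comm]
    rw [List.toFinset_cons, Finset.sum_insert (by simpa using hk)]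
    rw [List.erase_cons_head, add_comm]
    congr 1
    refine Finset.sum_congr rfl ?_
    intro i hi
    rw [List.mem_toFinset] at hi
    have hik : i ≠ k := fun e => hk (e ▸ hi)
    rw [List.erase_cons_tail (by simpa using Ne.symm hik), Finset.sum_add_distrib]
    rfl

/-- Renaming coordinates. -/
theorem gl_map (m : ℕ) (p : ℕ → ℕ) (σ : ℕ → ℕ) (hσ : Function.Injective σ) (L : List ℕ)
    (φ : List (ℕ → ℕ) → ZMod 2) :
    gl m p (L.map σ) (fun l => φ (l.map (fun v => v ∘ σ))) = gl m (p ∘ σ) L φ := by
  induction L generalizing φ with
  | nil => simp [gl]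
  | cons k L ih =>
    simp only [List.map_cons, gl]
    refine Finset.sum_congr rfl (fun t _ => ?_)
    rw [← ih]
    congr 1
    funext l
    refine (prism_map _ _ _ _ _ _ ?_ ?_ l φ).symm
    · intro v
      exact (Function.update_comp_eq_of_injective v hσ k _).symm
    · intro v
      exact (Function.update_comp_eq_of_injective v hσ k _).symm

/-- The increasing map that misses `i`. -/
def sig (i j : ℕ) : ℕ := if j < i then j else j + 1

theorem sig_inj (i : ℕ) : Function.Injective (sig i) := by
  intro a b h
  simp only [sig] at h
  split_ifs at h <;> omega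

theorem rng_erase (N i : ℕ) (hi : i ≤ N) : (rng (N + 1)).erase i = (rng N).map (sig i) := by
  induction N with
  | zero =>
    have : i = 0 := by omega
    subst this
    simp [rng]
  | succ N ih =>
    by_cases h : i = N + 1
    · subst h
      rw [rng, List.erase_cons_head]
      conv_lhs => rw [← List.map_id (rng (N + 1))]
      refine List.map_congr_left ?_
      intro a ha
      rw [mem_rng] at ha
      simp [sig, ha]
    · rw [rng, List.erase_cons_tail (by simpa using Ne.symm h), ih (by omega)]
      conv_rhs => rw [rng]
      rw [List.map_cons]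
      congr 1
      simp only [sig]
      rw [if_neg (by omega)]

/-- A function that does not depend on the outermost coordinate. -/
theorem gl_degenerate (m : ℕ) (p : ℕ → ℕ) (k : ℕ) (L : List ℕ) (R : Multiset ℕ) (hR : R.Nodup)
    (lam : (ℕ → ℕ) → ℕ)
    (h : ∀ v t t', lam (Function.update v k t) = lam (Function.update v k t')) :
    gl m p (k :: L) (fun l => ind R (l.map lam)) = 0 := by
  classical
  simp only [gl]
  refine Finset.sum_eq_zero ?_
  intro t _
  apply gl_zero
  intro l
  have key : ∀ (l : List (ℕ → ℕ)) (pre : List ℕ),
      prism (fun v => Function.update v k t) (fun v => Function.update v k (t + 1)) l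
        (fun l => ind R (pre ++ l.map lam)) = 0 := by
    intro l
    induction l with
    | nil => intro pre; rfl
    | cons v l ih =>
      intro pre
      simp only [prism]
      have h1 : ind R (pre ++ (Function.update v k t :: Function.update v k (t + 1) ::
          l.map (fun v => Function.update v k (t + 1))).map lam) = 0 := by
        simp only [ind]
        rw [if_neg]
        intro e
        rw [← e] at hR
        rw [Multiset.coe_nodup, List.nodup_append] at hR
        obtain ⟨-, h2, -⟩ := hR
        simp only [List.map_cons, List.nodup_cons, List.mem_cons] at h2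
        exact h2.1 (Or.inl (h v t (t + 1)))
      rw [h1, zero_add]
      have h2 := ih (pre ++ [lam (Function.update v k t)])
      simpa using h2
  have := key l []
  simpa using this

/-- The parity argument. -/
theorem parity (N m : ℕ) (hN : Odd N) (lam mu can : (ℕ → ℕ) → ℕ)
    (h1 : ∀ x, lam x ≤ N + 1)
    (hsmall : ∀ l : List (ℕ → ℕ), (∃ x : ℕ → ℕ, ∀ y ∈ l, ∀ i, y i = x i ∨ y i = x i + 1) →
      ind (Multiset.range (N + 2)) (l.map lam) = 0)
    (hdeg : ∀ i, i < N → ∀ v t t', lam (Function.update (Function.update v i m) N t) =
      lam (Function.update (Function.update v i m) N t'))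
    (hfirst : ∀ x : ℕ → ℕ, lam (Function.update x 0 0) = mu (x ∘ sig 0))
    (hlast : ∀ x : ℕ → ℕ, lam (Function.update x N m) = mu (x ∘ sig N))
    (hcan : ∀ i, 1 ≤ i → i ≤ N → ∀ x : ℕ → ℕ, lam (Function.update x i 0) = can (x ∘ sig i))
    (hK : gl m (fun _ => 0) (rng N) (fun l => ind (Multiset.range (N + 1)) (l.map can)) = 1) :
    False := by
  classical
  set p : ℕ → ℕ := fun _ => 0 with hp
  have e1 : gl m p (rng (N + 1)) (fun l => del l (fun l' =>
      ind (Multiset.range (N + 1)) (l'.map lam))) = 0 := by
    have : gl m p (rng (N + 1)) (fun l => del l (fun l' =>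
      ind (Multiset.range (N + 1)) (l'.map lam))) = gl m p (rng (N + 1)) (fun _ => 0) := by
      apply gl_congr_of_small
      intro l hl
      rw [← del_map lam l (ind (Multiset.range (N + 1))), del_ind_range]
      · exact hsmall l hl
      · intro a ha
        obtain ⟨x, _, rfl⟩ := List.mem_map.1 ha
        exact h1 x
    rw [this]
    exact gl_zero _ _ _ _ (fun _ => rfl)
  rw [gl_del m p (rng (N + 1)) (nodup_rng _) _ (by
    simp only [ind, List.map_nil]
    rw [if_neg]
    intro h
    have := congrArg Multiset.card h
    simp at this)] at e1
  rw [toFinset_rng] at e1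
  -- the faces
  have face : ∀ i, i ≤ N → ∀ c (nu : (ℕ → ℕ) → ℕ),
      (∀ x : ℕ → ℕ, lam (Function.update x i c) = nu (x ∘ sig i)) →
      gl m p ((rng (N + 1)).erase i) (fun l => ind (Multiset.range (N + 1))
        ((l.map (fun v => Function.update v i c)).map lam)) =
      gl m p (rng N) (fun l => ind (Multiset.range (N + 1)) (l.map nu)) := by
    intro i hi c nu hnu
    rw [rng_erase N i hi]
    have h2 := gl_map m p (sig i) (sig_inj i) (rng N)
      (fun l => ind (Multiset.range (N + 1)) (l.map nu))
    have h3 : p ∘ sig i = p := rfl
    rw [h3] at h2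
    rw [← h2]
    congr 1
    funext l
    congr 1
    rw [List.map_map, List.map_map]
    refine List.map_congr_left ?_
    intro v _
    exact hnu v
  have degen : ∀ i, i < N →
      gl m p ((rng (N + 1)).erase i) (fun l => ind (Multiset.range (N + 1))
        ((l.map (fun v => Function.update v i m)).map lam)) = 0 := by
    intro i hi
    have h2 : (rng (N + 1)).erase i = N :: (rng N).erase i := by
      rw [rng, List.erase_cons_tail (by simpa using (by omega : N ≠ i))]
    rw [h2]
    have h3 := gl_degenerate m p N ((rng N).erase i) (Multiset.range (N + 1))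
      (Multiset.nodup_range _) (fun v => lam (Function.update v i m)) (by
        intro v t t'
        have hNi : N ≠ i := by omega
        show lam (Function.update (Function.update v N t) i m) =
          lam (Function.update (Function.update v N t') i m)
        rw [Function.update_comm hNi, Function.update_comm hNi]
        exact hdeg i hi v t t')
    rw [← h3]
    congr 1
    funext l
    congr 1
    rw [List.map_map]
    rfl
  have hN1 : 1 ≤ N := hN.pos
  -- split the sum
  have e2 : ∀ i ∈ Finset.range (N + 1),
      (gl m p ((rng (N + 1)).erase i) (fun l => ind (Multiset.range (N + 1))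
        ((l.map (fun v => Function.update v i m)).map lam)) +
      gl m p ((rng (N + 1)).erase i) (fun l => ind (Multiset.range (N + 1))
        ((l.map (fun v => Function.update v i 0)).map lam))) =
      (if i = N then gl m p (rng N) (fun l => ind (Multiset.range (N + 1)) (l.map mu)) else 0) +
      (if i = 0 then gl m p (rng N) (fun l => ind (Multiset.range (N + 1)) (l.map mu)) else 1) := by
    intro i hi
    rw [Finset.mem_range] at hi
    congr 1
    · by_cases h : i = N
      · subst h
        rw [if_pos rfl]
        exact face i le_rfl m mu hlast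
      · rw [if_neg h]
        exact degen i (by omega)
    · by_cases h : i = 0
      · subst h
        rw [if_pos rfl]
        exact face 0 (by omega) 0 mu hfirst
      · rw [if_neg h]
        rw [face i (by omega) 0 can (hcan i (by omega) (by omega))]
        exact hK
  rw [Finset.sum_congr rfl e2, Finset.sum_add_distrib] at e1
  set X := gl m p (rng N) (fun l => ind (Multiset.range (N + 1)) (l.map mu)) with hX
  have e3 : ∑ i ∈ Finset.range (N + 1), (if i = N then X else 0) = X := by
    rw [Finset.sum_ite_eq' (Finset.range (N + 1)) N (fun _ => X)]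
    simp
  have e4 : ∑ i ∈ Finset.range (N + 1), (if i = 0 then X else 1) = X + N := by
    rw [Finset.sum_range_succ']
    simp [add_comm]
  rw [e3, e4] at e1
  have e5 : (N : ZMod 2) = 1 := by
    obtain ⟨k, rfl⟩ := hN
    push_cast
    have : (2 : ZMod 2) = 0 := by decide
    rw [this]
    ring
  rw [e5] at e1
  have e6 := two_eq X
  have : (1 : ZMod 2) = 0 := by linear_combination e1 - e6
  exact absurd this (by decide)

end V11194.Ret
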