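import Mathlib
import Pool.Agent.V11194.Ret.Comb

set_option autoImplicit false

/-!
Finite subsets of the unit circle: the coordinate on the circle, products of numbers in `[0,1]`
attached to grid points, and the labels.
-/

namespace V11194.Ret

open H63Fed.Kuhn

noncomputable section

/-- The point of the unit circle with parameter `τ`. -/
def e (τ : ℝ) : ℂ := Complex.exp (Complex.I * ((2 * Real.pi * τ : ℝ) : ℂ))

/-- The parameter of a complex number, in `(0,1]`. -/
def a (z : ℂ) : ℝ := (Complex.arg (-z) + Real.pi) / (2 * Real.pi)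

theorem norm_e (τ : ℝ) : ‖e τ‖ = 1 := Complex.norm_exp_I_mul_ofReal _

theorem e_zero : e 0 = 1 := by simp [e]

theorem e_one : e 1 = 1 := by
  have : e 1 = Complex.exp (2 * Real.pi * Complex.I) := by
    unfold e
    congr 1
    push_cast
    ring
  rw [this, Complex.exp_two_pi_mul_I]

theorem dist_e (s t : ℝ) : dist (e s) (e t) ≤ 2 * Real.pi * |s - t| := by
  rw [dist_eq_norm]
  have h : e s - e t = e t * (Complex.exp (Complex.I * ((2 * Real.pi * (s - t) : ℝ) : ℂ)) - 1) := by
    unfold e
    rw [mul_sub, ← Complex.exp_add, mul_one]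
    congr 2
    push_cast
    ring
  rw [h, norm_mul, norm_e, one_mul]
  refine (Real.norm_exp_I_mul_ofReal_sub_one_le).trans ?_
  rw [Real.norm_eq_abs, abs_mul, abs_of_pos (by positivity : (0 : ℝ) < 2 * Real.pi)]

theorem neg_mul_e (ρ τ : ℝ) : -((ρ : ℂ) * e τ) =
    (ρ : ℂ) * Complex.exp ((2 * Real.pi * τ - Real.pi : ℝ) * Complex.I) := by
  have h : Complex.exp ((2 * Real.pi * τ - Real.pi : ℝ) * Complex.I) = - e τ := by
    have : ((2 * Real.pi * τ - Real.pi : ℝ) : ℂ) * Complex.I =
        Complex.I * ((2 * Real.pi * τ : ℝ) : ℂ) - Real.pi * Complex.I := by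
      push_cast
      ring
    rw [this, Complex.exp_sub, Complex.exp_pi_mul_I]
    unfold e
    ring
  rw [h]
  ring

theorem arg_neg_mul_e (ρ τ : ℝ) (hρ : 0 < ρ) (h0 : 0 < τ) (h1 : τ ≤ 1) :
    Complex.arg (-((ρ : ℂ) * e τ)) = 2 * Real.pi * τ - Real.pi := by
  rw [neg_mul_e, Complex.arg_real_mul _ hρ, Complex.arg_exp_mul_I]
  rw [toIocMod_eq_self]
  have := Real.pi_pos
  constructor
  · nlinarith
  · nlinarith

theorem a_mul_e (ρ τ : ℝ) (hρ : 0 < ρ) (h0 : 0 < τ) (h1 : τ ≤ 1) : a ((ρ : ℂ) * e τ) = τ := by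
  unfold a
  rw [arg_neg_mul_e ρ τ hρ h0 h1]
  have := Real.pi_pos
  field_simp
  ring

theorem a_e (τ : ℝ) (h0 : 0 < τ) (h1 : τ ≤ 1) : a (e τ) = τ := by
  have := a_mul_e 1 τ one_pos h0 h1
  simpa using this

theorem a_e_zero : a (e 0) = 1 := by
  rw [e_zero, ← e_one]
  exact a_e 1 one_pos le_rfl

theorem polar (z : ℂ) : z = (‖z‖ : ℂ) * e (a z) := by
  have h := Complex.norm_mul_exp_arg_mul_I (-z)
  rw [norm_neg] at h
  have h2 : e (a z) = - Complex.exp (Complex.arg (-z) * Complex.I) := by
    unfold e a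
    have : Complex.I * ((2 * Real.pi * ((Complex.arg (-z) + Real.pi) / (2 * Real.pi)) : ℝ) : ℂ) =
        Complex.arg (-z) * Complex.I + Real.pi * Complex.I := by
      have hp : (2 * Real.pi * ((Complex.arg (-z) + Real.pi) / (2 * Real.pi)) : ℝ) =
          Complex.arg (-z) + Real.pi := by
        have := Real.pi_pos
        field_simp
      rw [hp]
      push_cast
      ring
    rw [this, Complex.exp_add, Complex.exp_pi_mul_I]
    ring
  rw [h2]
  linear_combination h

/-- Uniform continuity of the parameter away from the positive axis. -/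
theorem a_unif (δ η : ℝ) (hδ : 0 < δ) (hδ1 : δ < 1) (hη : 0 < η) :
    ∃ ε : ℝ, 0 < ε ∧ ∀ z w : ℂ, 1 / 2 ≤ ‖z‖ → ‖z‖ ≤ 3 / 2 → δ ≤ a z → a z ≤ 1 - δ →
      dist z w < ε → |a w - a z| < η := by
  set K : Set ℂ := (fun q : ℝ × ℝ => (q.1 : ℂ) * e q.2) '' (Set.Icc (1 / 2) (3 / 2) ×ˢ Set.Icc δ (1 - δ))
    with hK
  have hKc : IsCompact K := by
    apply IsCompact.image (isCompact_Icc.prod isCompact_Icc)
    unfold e
    fun_prop
  have hcont : ∀ z ∈ K, ContinuousAt a z := by
    rintro z ⟨⟨ρ, τ⟩, ⟨h1, h2⟩, rfl⟩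
    simp only [Set.mem_Icc] at h1 h2
    have hs : -((ρ : ℂ) * e τ) ∈ Complex.slitPlane := by
      rw [Complex.mem_slitPlane_iff_arg]
      have hp := Real.pi_pos
      constructor
      · rw [arg_neg_mul_e ρ τ (by linarith) (by linarith) (by linarith)]
        intro h
        have : τ = 1 := by
          have : 2 * Real.pi * τ = 2 * Real.pi * 1 := by linarith
          exact mul_left_cancel₀ (by positivity) this
        linarith
      · intro h
        have h3 := congrArg norm h
        rw [norm_neg, norm_mul, norm_e, Complex.norm_real, norm_zero, mul_one,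
          Real.norm_eq_abs, abs_eq_zero] at h3
        linarith
    unfold a
    apply ContinuousAt.div_const
    apply ContinuousAt.add _ continuousAt_const
    exact ContinuousAt.comp (g := Complex.arg) (f := fun z : ℂ => -z) (Complex.continuousAt_arg hs)
      continuous_neg.continuousAt
  have hU := hKc.uniformContinuousAt_of_continuousAt a hcont (Metric.dist_mem_uniformity hη)
  obtain ⟨ε, hε, h⟩ := Metric.mem_uniformity_dist.1 hU
  refine ⟨ε, hε, ?_⟩
  intro z w h1 h2 h3 h4 h5
  have hzK : z ∈ K := ⟨(‖z‖, a z), ⟨⟨h1, h2⟩, ⟨h3, h4⟩⟩, (polar z).symm⟩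
  have h6 := h h5 hzK
  simp only [Set.mem_ofPred_eq] at h6
  rw [dist_comm, Real.dist_eq] at h6
  exact h6

/-- The coordinate in `[0,1]` of a grid point. -/
def u (m : ℕ) (x : ℕ → ℕ) (i : ℕ) : ℝ := 1 - (min (x i) m : ℕ) / m

/-- Products of coordinates. -/
def gp (m : ℕ) (x : ℕ → ℕ) (j : ℕ) : ℝ := ∏ k ∈ Finset.range j, u m x k

theorem u_nonneg (m : ℕ) (x : ℕ → ℕ) (i : ℕ) : 0 ≤ u m x i := by
  unfold u
  rcases Nat.eq_zero_or_pos m with rfl | hm
  · simp
  · have h : ((min (x i) m : ℕ) : ℝ) ≤ m := by exact_mod_cast min_le_right _ _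
    have hm' : (0 : ℝ) < m := by exact_mod_cast hm
    have : ((min (x i) m : ℕ) : ℝ) / m ≤ 1 := (div_le_one hm').2 h
    linarith

theorem u_le_one (m : ℕ) (x : ℕ → ℕ) (i : ℕ) : u m x i ≤ 1 := by
  unfold u
  have : (0 : ℝ) ≤ ((min (x i) m : ℕ) : ℝ) / m := by positivity
  linarith

theorem u_zero (m : ℕ) (x : ℕ → ℕ) (i : ℕ) (h : x i = 0) : u m x i = 1 := by
  simp [u, h]

theorem u_full (m : ℕ) (hm : 0 < m) (x : ℕ → ℕ) (i : ℕ) (h : x i = m) : u m x i = 0 := by
  have hm' : (m : ℝ) ≠ 0 := by positivity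
  simp [u, h, hm']

theorem u_congr (m : ℕ) (x y : ℕ → ℕ) (i j : ℕ) (h : x i = y j) : u m x i = u m y j := by
  simp [u, h]

theorem gp_succ (m : ℕ) (x : ℕ → ℕ) (j : ℕ) : gp m x (j + 1) = gp m x j * u m x j := by
  unfold gp
  rw [Finset.prod_range_succ]

theorem gp_nonneg (m : ℕ) (x : ℕ → ℕ) (j : ℕ) : 0 ≤ gp m x j :=
  Finset.prod_nonneg (fun i _ => u_nonneg m x i)

theorem gp_anti (m : ℕ) (x : ℕ → ℕ) : Antitone (gp m x) := by
  apply antitone_nat_of_succ_le
  intro j
  rw [gp_succ]
  exact mul_le_of_le_one_right (gp_nonneg m x j) (u_le_one m x j)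

theorem gp_zero' (m : ℕ) (x : ℕ → ℕ) : gp m x 0 = 1 := by simp [gp]

theorem gp_le_one (m : ℕ) (x : ℕ → ℕ) (j : ℕ) : gp m x j ≤ 1 := by
  rw [← gp_zero' m x]
  exact gp_anti m x (Nat.zero_le j)

theorem gp_congr (m : ℕ) (x y : ℕ → ℕ) (j : ℕ) (h : ∀ i, i < j → x i = y i) :
    gp m x j = gp m y j :=
  Finset.prod_congr rfl (fun i hi => u_congr m x y i i (h i (Finset.mem_range.1 hi)))

/-- Setting a coordinate to zero removes it. -/
theorem gp_update_zero (m : ℕ) (x : ℕ → ℕ) (i : ℕ) (j : ℕ) :
    gp m (Function.update x i 0) j = gp m (x ∘ sig i) (if j ≤ i then j else j - 1) := by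
  induction j with
  | zero => simp [gp]
  | succ j ih =>
    rw [gp_succ, ih]
    rcases lt_trichotomy j i with h | h | h
    · rw [if_pos (by omega), if_pos (by omega), gp_succ]
      congr 1
      apply u_congr
      rw [Function.update_of_ne (by omega)]
      simp [sig, h]
    · subst h
      rw [if_pos le_rfl, if_neg (by omega), u_zero _ _ _ (Function.update_self ..), mul_one]
      rfl
    · rw [if_neg (by omega), if_neg (by omega)]
      obtain ⟨k, rfl⟩ : ∃ k, j = k + 1 := ⟨j - 1, by omega⟩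
      simp only [Nat.add_sub_cancel]
      rw [gp_succ m (x ∘ sig i) k]
      congr 1
      apply u_congr
      rw [Function.update_of_ne (by omega)]
      simp only [Function.comp_apply, sig]
      rw [if_neg (by omega)]

theorem gp_update_full (m : ℕ) (hm : 0 < m) (x : ℕ → ℕ) (i j : ℕ) (h : i < j) :
    gp m (Function.update x i m) j = 0 := by
  unfold gp
  apply Finset.prod_eq_zero (Finset.mem_range.2 h)
  exact u_full m hm _ i (Function.update_self ..)

theorem u_near (m : ℕ) (hm : 0 < m) (x y : ℕ → ℕ) (i : ℕ) (h : y i = x i ∨ y i = x i + 1) :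
    |u m x i - u m y i| ≤ 1 / m := by
  have hm' : (0 : ℝ) < m := by exact_mod_cast hm
  have h2 : min (y i) m = min (x i) m ∨ min (y i) m = min (x i) m + 1 := by
    rcases h with h | h
    · left; rw [h]
    · rw [h]; omega
  unfold u
  rcases h2 with h2 | h2
  · rw [h2]
    simp only [sub_self, abs_zero]
    positivity
  · rw [h2]
    have : (1 - ((min (x i) m : ℕ) : ℝ) / m - (1 - ((min (x i) m + 1 : ℕ) : ℝ) / m)) = 1 / m := by
      push_cast
      field_simp
      ring
    rw [this, abs_of_nonneg (by positivity)]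

theorem u_near' (m : ℕ) (hm : 0 < m) (c x y : ℕ → ℕ) (i : ℕ) (h : x i = c i ∨ x i = c i + 1)
    (h' : y i = c i ∨ y i = c i + 1) :
    |u m x i - u m y i| ≤ 1 / m := by
  have hm' : (0 : ℝ) < m := by exact_mod_cast hm
  rcases h with h | h
  · exact u_near m hm x y i (by omega)
  · rcases h' with h' | h'
    · rw [abs_sub_comm]
      exact u_near m hm y x i (by omega)
    · rw [u_congr m x y i i (by omega)]
      simp only [sub_self, abs_zero]
      positivity

theorem gp_near (m : ℕ) (hm : 0 < m) (c x y : ℕ → ℕ) (h : ∀ i, x i = c i ∨ x i = c i + 1)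
    (h' : ∀ i, y i = c i ∨ y i = c i + 1) (j : ℕ) :
    |gp m x j - gp m y j| ≤ j / m := by
  have hm' : (0 : ℝ) < m := by exact_mod_cast hm
  induction j with
  | zero => simp [gp]
  | succ j ih =>
    rw [gp_succ, gp_succ]
    have e1 : gp m x j * u m x j - gp m y j * u m y j =
        (gp m x j - gp m y j) * u m x j + gp m y j * (u m x j - u m y j) := by ring
    rw [e1]
    refine (abs_add_le _ _).trans ?_
    rw [abs_mul, abs_mul, abs_of_nonneg (u_nonneg m x j), abs_of_nonneg (gp_nonneg m y j)]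
    have h1 : |gp m x j - gp m y j| * u m x j ≤ j / m :=
      (mul_le_of_le_one_right (abs_nonneg _) (u_le_one m x j)).trans ih
    have h2 : gp m y j * |u m x j - u m y j| ≤ 1 / m :=
      (mul_le_of_le_one_left (abs_nonneg _) (gp_le_one m y j)).trans
        (u_near' m hm c x y j (h j) (h' j))
    push_cast
    rw [add_div]
    exact add_le_add h1 h2

/-- The finite set on the circle attached to a grid point. -/
def B (n m : ℕ) (x : ℕ → ℕ) : Finset ℂ :=
  (Finset.range n).image (fun i => e (gp m x (i + 1)))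

theorem B_card (n m : ℕ) (x : ℕ → ℕ) : (B n m x).card ≤ n := by
  refine Finset.card_image_le.trans ?_
  simp

theorem B_nonempty (n m : ℕ) (hn : 0 < n) (x : ℕ → ℕ) : (B n m x).Nonempty :=
  ⟨_, Finset.mem_image_of_mem _ (Finset.mem_range.2 hn)⟩

theorem B_can (N m : ℕ) (i : ℕ) (hi : 1 ≤ i) (hiN : i ≤ N) (x : ℕ → ℕ) :
    B (N + 1) m (Function.update x i 0) = B N m (x ∘ sig i) := by
  ext z
  simp only [B, Finset.mem_image, Finset.mem_range]
  constructor
  · rintro ⟨j, hj, rfl⟩
    rw [gp_update_zero]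
    by_cases h : j + 1 ≤ i
    · rw [if_pos h]
      exact ⟨j, by omega, rfl⟩
    · rw [if_neg h]
      refine ⟨j - 1, by omega, ?_⟩
      congr 2
      omega
  · rintro ⟨j, hj, rfl⟩
    by_cases h : j + 1 ≤ i
    · refine ⟨j, by omega, ?_⟩
      rw [gp_update_zero, if_pos h]
    · refine ⟨j + 1, by omega, ?_⟩
      rw [gp_update_zero, if_neg (by omega)]
      rfl

theorem B_first (N m : ℕ) (x : ℕ → ℕ) :
    B (N + 1) m (Function.update x 0 0) = insert 1 (B N m (x ∘ sig 0)) := by
  ext z
  simp only [B, Finset.mem_image, Finset.mem_range, Finset.mem_insert]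
  constructor
  · rintro ⟨j, hj, rfl⟩
    rw [gp_update_zero, if_neg (by omega)]
    rcases Nat.eq_zero_or_pos j with rfl | h
    · left
      simp only [Nat.zero_add, Nat.sub_self, gp_zero', e_one]
    · right
      refine ⟨j - 1, by omega, ?_⟩
      congr 2
      omega
  · rintro (rfl | ⟨j, hj, rfl⟩)
    · refine ⟨0, by omega, ?_⟩
      rw [gp_update_zero, if_neg (by omega)]
      simp only [Nat.zero_add, Nat.sub_self, gp_zero', e_one]
    · refine ⟨j + 1, by omega, ?_⟩
      rw [gp_update_zero, if_neg (by omega)]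
      rfl

theorem B_last (N m : ℕ) (hm : 0 < m) (x : ℕ → ℕ) :
    B (N + 1) m (Function.update x N m) = insert 1 (B N m (x ∘ sig N)) := by
  have key : ∀ j, j < N → gp m (Function.update x N m) (j + 1) = gp m (x ∘ sig N) (j + 1) := by
    intro j hj
    apply gp_congr
    intro i hi
    rw [Function.update_of_ne (by omega)]
    simp only [Function.comp_apply, sig]
    rw [if_pos (by omega)]
  ext z
  simp only [B, Finset.mem_image, Finset.mem_range, Finset.mem_insert]
  constructor
  · rintro ⟨j, hj, rfl⟩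
    by_cases h : j = N
    · left
      subst h
      rw [gp_update_full m hm x j (j + 1) (by omega), e_zero]
    · right
      refine ⟨j, by omega, ?_⟩
      rw [key j (by omega)]
  · rintro (rfl | ⟨j, hj, rfl⟩)
    · refine ⟨N, by omega, ?_⟩
      rw [gp_update_full m hm x N (N + 1) (by omega), e_zero]
    · refine ⟨j, by omega, ?_⟩
      rw [key j (by omega)]

theorem B_deg (N m : ℕ) (hm : 0 < m) (i : ℕ) (hi : i < N) (v : ℕ → ℕ) (t t' : ℕ) :
    B (N + 1) m (Function.update (Function.update v i m) N t) =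
      B (N + 1) m (Function.update (Function.update v i m) N t') := by
  have key : ∀ s j, j ≤ N → gp m (Function.update (Function.update v i m) N s) (j + 1) =
      if j < i then gp m v (j + 1) else 0 := by
    intro s j hj
    by_cases h : j < i
    · rw [if_pos h]
      apply gp_congr
      intro k hk
      rw [Function.update_of_ne (by omega), Function.update_of_ne (by omega)]
    · rw [if_neg h, Function.update_comm (by omega : i ≠ N)]
      exact gp_update_full m hm _ i (j + 1) (by omega)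
  unfold B
  apply Finset.image_congr
  intro j hj
  have hj' : j ≤ N := by
    have := Finset.mem_range.1 (Finset.mem_coe.1 hj)
    omega
  show e _ = e _
  rw [key t j hj', key t' j hj']

end

end V11194.Ret
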