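import Mathlib
import Pool.Agent.V11194.Ret.Geo

set_option autoImplicit false

/-!
Labels of finite sets of complex numbers near the unit circle.
-/

namespace V11194.Ret

open H63Fed.Kuhn

noncomputable section

/-- The parameters of the central configuration. -/
def bs (N i : ℕ) : ℝ := 1 - ((i : ℝ) + 1) / ((N : ℝ) + 1)

/-- Half-width of the windows. -/
def rho (N : ℕ) : ℝ := 1 / (4 * ((N : ℝ) + 1))

/-- Every window contains a point. -/
def near (N : ℕ) (S : Finset ℂ) : Prop := ∀ i, i < N → ∃ z ∈ S, |a z - bs N i| < rho N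

/-- The `i`-th window contains a point in its lower half. -/
def low (N : ℕ) (S : Finset ℂ) (i : ℕ) : Prop := ∃ z ∈ S, |a z - bs N i| < rho N ∧ a z ≤ bs N i

open Classical in
/-- The label of a finite set. -/
def Lab (N : ℕ) (S : Finset ℂ) : ℕ :=
  if near N S then (if h : ∃ i, i < N ∧ low N S i then Nat.find h else N) else N + 1

theorem rho_pos (N : ℕ) : 0 < rho N := by unfold rho; positivity

theorem bs_sub (N i j : ℕ) : bs N i - bs N j = 4 * rho N * ((j : ℝ) - i) := by
  unfold bs rho
  field_simp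
  ring

theorem bs_low (N i : ℕ) (h : i < N) : 4 * rho N ≤ bs N i := by
  have h1 : ((i : ℝ) + 1) ≤ N := by exact_mod_cast h
  unfold bs rho
  have h2 : (0 : ℝ) < (N : ℝ) + 1 := by positivity
  have e1 : 4 * (1 / (4 * ((N : ℝ) + 1))) = 1 / ((N : ℝ) + 1) := by field_simp
  rw [e1, le_sub_iff_add_le, ← add_div, div_le_one h2]
  linarith

theorem bs_high (N i : ℕ) : bs N i ≤ 1 - 4 * rho N := by
  unfold bs rho
  have h2 : (0 : ℝ) < (N : ℝ) + 1 := by positivity
  have e1 : 4 * (1 / (4 * ((N : ℝ) + 1))) = 1 / ((N : ℝ) + 1) := by field_simp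
  rw [e1]
  have : 1 / ((N : ℝ) + 1) ≤ ((i : ℝ) + 1) / ((N : ℝ) + 1) := by
    apply div_le_div_of_nonneg_right _ h2.le
    have : (0 : ℝ) ≤ i := Nat.cast_nonneg i
    linarith
  linarith

/-- Two windows whose centres are at distance less than `4ρ` agree. -/
theorem bs_inj (N i j : ℕ) (h : |bs N i - bs N j| < 4 * rho N) : i = j := by
  rw [bs_sub, abs_mul, abs_of_pos (by have := rho_pos N; positivity)] at h
  have h1 : |(j : ℝ) - i| < 1 := by
    by_contra h2
    push Not at h2
    have := mul_le_mul_of_nonneg_left h2 (by have := rho_pos N; positivity : (0 : ℝ) ≤ 4 * rho N)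
    linarith
  have h2 : |(j : ℤ) - i| < 1 := by exact_mod_cast h1
  rw [Int.abs_lt_one_iff] at h2
  omega

theorem Lab_le (N : ℕ) (S : Finset ℂ) : Lab N S ≤ N + 1 := by
  classical
  unfold Lab
  split_ifs with h1 h2
  · exact (Nat.find_spec h2).1.le.trans (Nat.le_succ N)
  · omega
  · omega

theorem Lab_eq_last (N : ℕ) (S : Finset ℂ) (h : Lab N S = N + 1) : ¬ near N S := by
  classical
  intro hn
  unfold Lab at h
  rw [if_pos hn] at h
  split_ifs at h with h2
  · have := (Nat.find_spec h2).1
    omega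
  · omega

theorem Lab_eq_N (N : ℕ) (S : Finset ℂ) (h : Lab N S = N) :
    near N S ∧ ∀ i, i < N → ¬ low N S i := by
  classical
  unfold Lab at h
  split_ifs at h with h1 h2
  · have := (Nat.find_spec h2).1
    omega
  · refine ⟨h1, fun i hi hl => h2 ⟨i, hi, hl⟩⟩
  · omega

theorem Lab_eq_lt (N : ℕ) (S : Finset ℂ) (i : ℕ) (hi : i < N) (h : Lab N S = i) :
    near N S ∧ low N S i := by
  classical
  unfold Lab at h
  split_ifs at h with h1 h2
  · exact ⟨h1, h ▸ (Nat.find_spec h2).2⟩
  · omega
  · omega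

/-- With at most `N` points and all windows occupied, every point lies in a window. -/
theorem near_all (N : ℕ) (S : Finset ℂ) (hc : S.card ≤ N) (hn : near N S) :
    ∀ z ∈ S, ∃ i, i < N ∧ |a z - bs N i| < rho N := by
  classical
  choose! f hf1 hf2 using hn
  have hinj : Set.InjOn f (Finset.range N) := by
    intro i hi j hj hij
    have hi' := Finset.mem_range.1 (Finset.mem_coe.1 hi)
    have hj' := Finset.mem_range.1 (Finset.mem_coe.1 hj)
    have h1 := hf2 i hi'
    have h2 := hf2 j hj'
    rw [hij] at h1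
    apply bs_inj N
    have : |bs N i - bs N j| ≤ |a (f j) - bs N i| + |a (f j) - bs N j| := by
      have e1 : bs N i - bs N j = -(a (f j) - bs N i) + (a (f j) - bs N j) := by ring
      rw [e1]
      refine (abs_add_le _ _).trans ?_
      rw [abs_neg]
    have := rho_pos N
    linarith
  have hsub : (Finset.range N).image f ⊆ S := by
    intro z hz
    obtain ⟨i, hi, rfl⟩ := Finset.mem_image.1 hz
    exact hf1 i (Finset.mem_range.1 hi)
  have hcard : ((Finset.range N).image f).card = N := by
    rw [Finset.card_image_of_injOn hinj, Finset.card_range]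
  have heq := Finset.eq_of_subset_of_card_le hsub (by rw [hcard]; exact hc)
  intro z hz
  rw [← heq] at hz
  obtain ⟨i, hi, rfl⟩ := Finset.mem_image.1 hz
  exact ⟨i, Finset.mem_range.1 hi, hf2 i (Finset.mem_range.1 hi)⟩

/-- Nearby sets do not carry all the labels. -/
theorem no_full (N : ℕ) (η : ℝ) (hη : η ≤ rho N / 2) (F : ℕ → Finset ℂ)
    (hcard : (F N).card ≤ N)
    (hclose : ∀ i j, i ≤ N + 1 → j ≤ N + 1 → ∀ z ∈ F i, rho N ≤ a z → a z ≤ 1 - rho N →
      ∃ w ∈ F j, |a w - a z| < η)
    (hlab : ∀ j, j ≤ N + 1 → Lab N (F j) = j) : False := by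
  have h1 := Lab_eq_last N _ (hlab (N + 1) le_rfl)
  unfold near at h1
  push Not at h1
  obtain ⟨i, hi, hfar⟩ := h1
  obtain ⟨-, w, hw, hw1, hw2⟩ := Lab_eq_lt N _ i hi (hlab i (by omega))
  obtain ⟨hnear, hnot⟩ := Lab_eq_N N _ (hlab N (by omega))
  have hr := rho_pos N
  have hb1 := bs_low N i hi
  have hb2 := bs_high N i
  have habs := abs_lt.1 hw1
  have hs1 : rho N ≤ a w := by linarith
  have hs2 : a w ≤ 1 - rho N := by linarith
  obtain ⟨z', hz', hz1⟩ := hclose i N (by omega) (by omega) w hw hs1 hs2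
  obtain ⟨k, hk, hk1⟩ := near_all N _ hcard hnear z' hz'
  have hz2 := abs_lt.1 hz1
  have hk2 := abs_lt.1 hk1
  have hki : k = i := by
    apply bs_inj N
    rw [abs_lt]
    constructor <;> linarith
  subst hki
  have hz3 : bs N k < a z' := by
    by_contra h
    push Not at h
    exact hnot k hi ⟨z', hz', hk1, h⟩
  obtain ⟨w', hw', hw3⟩ := hclose k (N + 1) (by omega) le_rfl w hw hs1 hs2
  have hw4 := abs_lt.1 hw3
  have := hfar w' hw'
  rw [le_abs] at this
  rcases this with h | h <;> linarith

/-- Kuhn's label of a grid point. -/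
def kl (N m : ℕ) (y : ℕ → ℕ) : ℕ := by
  classical
  exact if h : ∃ i, i < N ∧ gp m y (i + 1) ≤ bs N i then Nat.find h else N

theorem kl_le (N m : ℕ) (y : ℕ → ℕ) : kl N m y ≤ N := by
  classical
  unfold kl
  split_ifs with h
  · exact (Nat.find_spec h).1.le
  · exact le_rfl

theorem kl_lt (N m : ℕ) (y : ℕ → ℕ) (i : ℕ) (hi : i < N) (h : kl N m y = i) :
    gp m y (i + 1) ≤ bs N i := by
  classical
  unfold kl at h
  split_ifs at h with h2
  · exact h ▸ (Nat.find_spec h2).2
  · omega

theorem kl_eq_N (N m : ℕ) (y : ℕ → ℕ) (h : kl N m y = N) (i : ℕ) (hi : i < N) :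
    bs N i < gp m y (i + 1) := by
  classical
  unfold kl at h
  split_ifs at h with h2
  · have := (Nat.find_spec h2).1
    omega
  · by_contra h3
    push Not at h3
    exact h2 ⟨i, hi, h3⟩

theorem kl_le_of (N m : ℕ) (y : ℕ → ℕ) (i : ℕ) (hi : i < N) (h : gp m y (i + 1) ≤ bs N i) :
    kl N m y ≤ i := by
  classical
  unfold kl
  have h2 : ∃ i, i < N ∧ gp m y (i + 1) ≤ bs N i := ⟨i, hi, h⟩
  rw [dif_pos h2]
  exact Nat.find_min' h2 ⟨hi, h⟩

theorem kl_prev (N m : ℕ) (y : ℕ → ℕ) (i : ℕ) (hi : i < N) (h : kl N m y = i) (j : ℕ) (hj : j < i) :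
    bs N j < gp m y (j + 1) := by
  by_contra h3
  push Not at h3
  have := kl_le_of N m y j (by omega) h3
  omega

theorem kuhn_count (N m : ℕ) (hm : 0 < m) :
    grid m (fun _ => 0) N (fun l => ind (Multiset.range (N + 1)) (l.map (kl N m))) = 1 := by
  apply kuhn_parity
  · exact kl_le N m
  · intro i hi x hx h
    have h1 := kl_lt N m x i hi h
    rw [gp_succ, u_zero m x i hx, mul_one] at h1
    have hr := rho_pos N
    rcases Nat.eq_zero_or_pos i with rfl | hi0
    · rw [gp_zero'] at h1
      have := bs_high N 0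
      linarith
    · have h2 := kl_prev N m x i hi h (i - 1) (by omega)
      rw [show i - 1 + 1 = i by omega] at h2
      have h3 := bs_sub N (i - 1) i
      have h4 : ((i - 1 : ℕ) : ℝ) = i - 1 := by
        push_cast [Nat.cast_sub (by omega : 1 ≤ i)]
        ring
      rw [h4] at h3
      nlinarith
  · intro i hi x hx
    apply kl_le_of N m x i hi
    rw [gp_succ, u_full m hm x i hx, mul_zero]
    have := bs_low N i hi
    have := rho_pos N
    linarith

/-- In a canonical set with all windows occupied the points are in order. -/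
theorem sorted (N m : ℕ) (y : ℕ → ℕ) (hn : near N (B N m y)) (i : ℕ) (hi : i < N) :
    |gp m y (i + 1) - bs N i| < rho N := by
  have hr := rho_pos N
  have h1 : ∀ i : Fin N, ∃ k : Fin N, |gp m y ((k : ℕ) + 1) - bs N i| < rho N := by
    intro i
    obtain ⟨z, hz, h⟩ := hn i i.2
    obtain ⟨k, hk, rfl⟩ := Finset.mem_image.1 hz
    rw [Finset.mem_range] at hk
    refine ⟨⟨k, hk⟩, ?_⟩
    rcases (gp_nonneg m y (k + 1)).eq_or_lt with h0 | h0
    · exfalso
      rw [← h0, a_e_zero] at h
      have := bs_high N i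
      have := (abs_lt.1 h).2
      linarith
    · rwa [a_e _ h0 (gp_le_one m y _)] at h
  choose f hf using h1
  have hmono : StrictMono f := by
    intro i j hij
    by_contra h
    push Not at h
    have h2 := hf i
    have h3 := hf j
    have h4 : gp m y ((f i : ℕ) + 1) ≤ gp m y ((f j : ℕ) + 1) :=
      gp_anti m y (Nat.succ_le_succ h)
    have h5 := bs_sub N i j
    have h6 : (1 : ℝ) ≤ (j : ℕ) - (i : ℕ) := by
      have h7 : (i : ℕ) + 1 ≤ (j : ℕ) := hij
      have : ((i : ℕ) : ℝ) + 1 ≤ ((j : ℕ) : ℝ) := by exact_mod_cast h7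
      linarith
    have h8 := abs_lt.1 h2
    have h9 := abs_lt.1 h3
    nlinarith
  have hid : f ⟨i, hi⟩ = ⟨i, hi⟩ :=
    le_antisymm hmono.apply_le hmono.le_apply
  have := hf ⟨i, hi⟩
  rw [hid] at this
  exact this

theorem Lab_can (N m : ℕ) (y : ℕ → ℕ) (hn : near N (B N m y)) : Lab N (B N m y) = kl N m y := by
  classical
  have hr := rho_pos N
  have key : ∀ i, i < N → (low N (B N m y) i ↔ gp m y (i + 1) ≤ bs N i) := by
    intro i hi
    constructor
    · rintro ⟨z, hz, h1, h2⟩
      obtain ⟨k, hk, rfl⟩ := Finset.mem_image.1 hz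
      rw [Finset.mem_range] at hk
      have h3 := sorted N m y hn k hk
      have h4 := bs_low N k hk
      have h5 := abs_lt.1 h3
      rw [a_e _ (by linarith) (gp_le_one m y _)] at h1 h2
      have h6 := abs_lt.1 h1
      have : k = i := by
        apply bs_inj N
        rw [abs_lt]
        constructor <;> linarith
      subst this
      exact h2
    · intro h
      have h3 := sorted N m y hn i hi
      have h4 := bs_low N i hi
      have h5 := abs_lt.1 h3
      refine ⟨e (gp m y (i + 1)), Finset.mem_image_of_mem _ (Finset.mem_range.2 hi), ?_, ?_⟩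
      · rwa [a_e _ (by linarith) (gp_le_one m y _)]
      · rwa [a_e _ (by linarith) (gp_le_one m y _)]
  unfold Lab kl
  rw [if_pos hn]
  by_cases h : ∃ i, i < N ∧ low N (B N m y) i
  · have h' : ∃ i, i < N ∧ gp m y (i + 1) ≤ bs N i := by
      obtain ⟨i, hi, hl⟩ := h
      exact ⟨i, hi, (key i hi).1 hl⟩
    rw [dif_pos h, dif_pos h']
    apply le_antisymm
    · apply Nat.find_min' h
      obtain ⟨h1, h2⟩ := Nat.find_spec h'
      exact ⟨h1, (key _ h1).2 h2⟩
    · apply Nat.find_min' h'
      obtain ⟨h1, h2⟩ := Nat.find_spec h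
      exact ⟨h1, (key _ h1).1 h2⟩
  · have h' : ¬ ∃ i, i < N ∧ gp m y (i + 1) ≤ bs N i := by
      rintro ⟨i, hi, hl⟩
      exact h ⟨i, hi, (key i hi).2 hl⟩
    rw [dif_neg h, dif_neg h']

/-- The number of completely labelled simplices of a canonical face is odd. -/
theorem can_count (N m : ℕ) (hm : 0 < m) (hNm : (N : ℝ) / m < rho N) :
    gl m (fun _ => 0) (rng N) (fun l => ind (Multiset.range (N + 1))
      (l.map (fun y => Lab N (B N m y)))) = 1 := by
  classical
  rw [← kuhn_count N m hm, ← gl_rng]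
  apply gl_congr_of_small
  rintro l ⟨c, hc⟩
  by_cases hall : ∀ y ∈ l, near N (B N m y)
  · have : l.map (fun y => Lab N (B N m y)) = l.map (kl N m) := by
      apply List.map_congr_left
      intro y hy
      exact Lab_can N m y (hall y hy)
    rw [this]
  · push Not at hall
    obtain ⟨y, hy, hny⟩ := hall
    have e1 : ind (Multiset.range (N + 1)) (l.map (fun y => Lab N (B N m y))) = 0 := by
      simp only [ind]
      rw [if_neg]
      intro h
      have hmem : (N + 1) ∈ ((l.map (fun y => Lab N (B N m y)) : List ℕ) : Multiset ℕ) := by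
        rw [Multiset.mem_coe, List.mem_map]
        refine ⟨y, hy, ?_⟩
        unfold Lab
        rw [if_neg hny]
      rw [h, Multiset.mem_range] at hmem
      omega
    have e2 : ind (Multiset.range (N + 1)) (l.map (kl N m)) = 0 := by
      simp only [ind]
      rw [if_neg]
      intro h
      apply hny
      have hget : ∀ j, j ≤ N → ∃ v ∈ l, kl N m v = j := by
        intro j hj
        have hmem : j ∈ ((l.map (kl N m) : List ℕ) : Multiset ℕ) := by
          rw [h, Multiset.mem_range]
          omega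
        rw [Multiset.mem_coe, List.mem_map] at hmem
        exact hmem
      intro i hi
      obtain ⟨v, hv, hvl⟩ := hget N le_rfl
      obtain ⟨w, hw, hwl⟩ := hget i hi.le
      have h1 := kl_eq_N N m v hvl i hi
      have h2 := kl_lt N m w i hi hwl
      have h3 := gp_near m hm c y v (hc y hy) (hc v hv) (i + 1)
      have h4 := gp_near m hm c y w (hc y hy) (hc w hw) (i + 1)
      have h5 : (((i + 1 : ℕ) : ℝ)) / m ≤ (N : ℝ) / m := by
        apply div_le_div_of_nonneg_right _ (by positivity)
        exact_mod_cast hi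
      have h6 := abs_le.1 h3
      have h7 := abs_le.1 h4
      have h8 := bs_low N i hi
      have hr := rho_pos N
      refine ⟨e (gp m y (i + 1)), Finset.mem_image_of_mem _ (Finset.mem_range.2 hi), ?_⟩
      rw [a_e _ (by linarith) (gp_le_one m y _), abs_lt]
      constructor <;> linarith
    rw [e1, e2]

end

end V11194.Ret
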