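import Mathlib
import Pool.Agent.V11194.Ret.Lab

set_option autoImplicit false

/-!
There are no uniformly Lipschitz retractions between the spaces of finite subsets of the plane.
-/

namespace V11194.Ret

open H63Fed.Kuhn

noncomputable section

theorem fin_ne_top (s t : Finset ℂ) (hs : s.Nonempty) (ht : t.Nonempty) :
    Metric.hausdorffEDist (s : Set ℂ) (t : Set ℂ) ≠ ⊤ :=
  Metric.hausdorffEDist_ne_top_of_nonempty_of_bounded (Finset.coe_nonempty.2 hs)
    (Finset.coe_nonempty.2 ht) s.finite_toSet.isBounded t.finite_toSet.isBounded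

theorem exists_close (s t : Finset ℂ) (hs : s.Nonempty) (ht : t.Nonempty) (ε : ℝ)
    (h : Metric.hausdorffDist (s : Set ℂ) (t : Set ℂ) < ε) (z : ℂ) (hz : z ∈ s) :
    ∃ w ∈ t, dist z w < ε := by
  obtain ⟨w, hw, h1⟩ := Metric.exists_dist_lt_of_hausdorffDist_lt (Finset.mem_coe.2 hz) h
    (fin_ne_top s t hs ht)
  exact ⟨w, Finset.mem_coe.1 hw, h1⟩

/-- Some gap between consecutive points is small. -/
theorem small_gap (N m : ℕ) (hN : 0 < N) (x : ℕ → ℕ) :
    ∃ i, 1 ≤ i ∧ i ≤ N ∧ gp m x i - gp m x (i + 1) ≤ 1 / N := by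
  by_contra h
  push Not at h
  have h1 : ∀ k, k ≤ N → k * (1 / (N : ℝ)) ≤ gp m x 1 - gp m x (k + 1) := by
    intro k
    induction k with
    | zero => intro _; simp
    | succ k ih =>
      intro hk
      have h2 := ih (by omega)
      have h3 := h (k + 1) (by omega) hk
      push_cast
      linarith
  have hN' : (0 : ℝ) < N := by exact_mod_cast hN
  have h4 : (1 : ℝ) ≤ gp m x 1 - gp m x (N + 1) := by
    have := h1 N le_rfl
    rwa [mul_one_div_cancel hN'.ne'] at this
  have h5 := h N hN le_rfl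
  have h6 := gp_le_one m x 1
  have h7 := gp_nonneg m x (N + 1)
  -- strictness
  have h8 : ∀ k, 1 ≤ k → k ≤ N → k * (1 / (N : ℝ)) < gp m x 1 - gp m x (k + 1) := by
    intro k hk
    induction k, hk using Nat.le_induction with
    | base =>
      intro h9
      have := h 1 le_rfl h9
      push_cast
      linarith
    | succ k hk ih =>
      intro h9
      have h10 := ih (by omega)
      have h11 := h (k + 1) (by omega) h9
      push_cast
      linarith
  have h12 := h8 N hN le_rfl
  rw [mul_one_div_cancel hN'.ne'] at h12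
  linarith

theorem no_retraction (C : ℝ) : ¬ (∀ n : ℕ, 2 ≤ n →
        ∃ r : Finset ℂ → Finset ℂ,
          (∀ s : Finset ℂ, s.Nonempty → s.card ≤ n →
              (r s).Nonempty ∧ (r s).card ≤ n - 1) ∧
          (∀ s : Finset ℂ, s.Nonempty → s.card ≤ n - 1 → r s = s) ∧
          (∀ s t : Finset ℂ, s.Nonempty → s.card ≤ n → t.Nonempty → t.card ≤ n →
              Metric.hausdorffDist ((r s : Finset ℂ) : Set ℂ) ((r t : Finset ℂ) : Set ℂ)
                ≤ C * Metric.hausdorffDist ((s : Finset ℂ) : Set ℂ) ((t : Finset ℂ) : Set ℂ))) := by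
  intro H
  classical
  set D : ℝ := max C 1 with hD
  have hD1 : 1 ≤ D := le_max_right _ _
  have hCD : C ≤ D := le_max_left _ _
  have hpi := Real.pi_pos
  obtain ⟨k, hk⟩ := exists_nat_gt (4 * Real.pi * D)
  set N : ℕ := 2 * k + 1 with hNdef
  have hNk : (4 * Real.pi * D) < N := by
    rw [hNdef]
    push_cast
    have : (0 : ℝ) ≤ k := Nat.cast_nonneg k
    linarith
  have hN0 : 0 < N := by omega
  have hN' : (0 : ℝ) < N := by exact_mod_cast hN0
  have hNodd : Odd N := ⟨k, rfl⟩
  obtain ⟨r, hr1, hr2, hr3⟩ := H (N + 1) (by omega)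
  simp only [Nat.add_sub_cancel] at hr1 hr2
  have hr3' : ∀ s t : Finset ℂ, s.Nonempty → s.card ≤ N + 1 → t.Nonempty → t.card ≤ N + 1 →
      Metric.hausdorffDist ((r s : Finset ℂ) : Set ℂ) ((r t : Finset ℂ) : Set ℂ)
        ≤ D * Metric.hausdorffDist ((s : Finset ℂ) : Set ℂ) ((t : Finset ℂ) : Set ℂ) := by
    intro s t h1 h2 h3 h4
    refine (hr3 s t h1 h2 h3 h4).trans ?_
    exact mul_le_mul_of_nonneg_right hCD Metric.hausdorffDist_nonneg
  have hrho := rho_pos N
  have hrho1 : rho N < 1 := by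
    unfold rho
    rw [div_lt_one (by positivity)]
    linarith
  obtain ⟨ε, hε, hunif⟩ := a_unif (rho N) (rho N / 2) hrho hrho1 (by positivity)
  -- choice of the mesh
  obtain ⟨m, hm⟩ := exists_nat_gt (max ((N : ℝ) / rho N) (D * (2 * Real.pi) * (N + 1) / ε))
  have hm1 : (N : ℝ) / rho N < m := (le_max_left _ _).trans_lt hm
  have hm2 : D * (2 * Real.pi) * (N + 1) / ε < m := (le_max_right _ _).trans_lt hm
  have hm' : (0 : ℝ) < m := lt_of_le_of_lt (by positivity) hm1
  have hm0 : 0 < m := by exact_mod_cast hm'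
  have hNm : (N : ℝ) / m < rho N := by
    rw [div_lt_iff₀ hm']
    rw [div_lt_iff₀ hrho] at hm1
    linarith
  -- the sets stay in the annulus
  have hann : ∀ x : ℕ → ℕ, ∀ z ∈ r (B (N + 1) m x), 1 / 2 ≤ ‖z‖ ∧ ‖z‖ ≤ 3 / 2 := by
    intro x z hz
    obtain ⟨i, hi1, hi2, hi3⟩ := small_gap N m hN0 x
    set s' : Finset ℂ := ((Finset.range (N + 1)).erase i).image (fun j => e (gp m x (j + 1)))
      with hs'
    have hs'c : s'.card ≤ N := by
      refine Finset.card_image_le.trans ?_
      rw [Finset.card_erase_of_mem (Finset.mem_range.2 (by omega)), Finset.card_range]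
      omega
    have hs'n : s'.Nonempty := by
      refine ⟨_, Finset.mem_image_of_mem _ (Finset.mem_erase.2 ⟨?_, Finset.mem_range.2 (Nat.succ_pos N)⟩)⟩
      omega
    have hB1 : (B (N + 1) m x).Nonempty := B_nonempty _ _ (by omega) _
    have hdist : Metric.hausdorffDist ((B (N + 1) m x : Finset ℂ) : Set ℂ) ((s' : Finset ℂ) : Set ℂ)
        ≤ 2 * Real.pi * (1 / N) := by
      apply Metric.hausdorffDist_le_of_mem_dist (by positivity)
      · intro w hw
        rw [Finset.mem_coe] at hw
        obtain ⟨j, hj, rfl⟩ := Finset.mem_image.1 hw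
        rw [Finset.mem_range] at hj
        by_cases hji : j = i
        · subst hji
          refine ⟨e (gp m x j), ?_, ?_⟩
          · rw [Finset.mem_coe]
            refine Finset.mem_image.2 ⟨j - 1, Finset.mem_erase.2 ⟨by omega, Finset.mem_range.2 (by omega)⟩, ?_⟩
            congr 2
            omega
          · refine (dist_e _ _).trans ?_
            apply mul_le_mul_of_nonneg_left _ (by positivity)
            rw [abs_sub_comm, abs_of_nonneg]
            · exact hi3
            · have := gp_anti m x (Nat.le_succ j)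
              exact sub_nonneg.2 this
        · refine ⟨e (gp m x (j + 1)), ?_, ?_⟩
          · rw [Finset.mem_coe]
            exact Finset.mem_image.2 ⟨j, Finset.mem_erase.2 ⟨hji, Finset.mem_range.2 hj⟩, rfl⟩
          · rw [dist_self]
            positivity
      · intro w hw
        rw [Finset.mem_coe] at hw
        obtain ⟨j, hj, rfl⟩ := Finset.mem_image.1 hw
        rw [Finset.mem_erase] at hj
        refine ⟨e (gp m x (j + 1)), ?_, ?_⟩
        · rw [Finset.mem_coe]
          exact Finset.mem_image.2 ⟨j, hj.2, rfl⟩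
        · rw [dist_self]
          positivity
    have h1 := hr3' _ _ hB1 (B_card _ _ _) hs'n (hs'c.trans (Nat.le_succ N))
    rw [hr2 s' hs'n hs'c] at h1
    have h2 : Metric.hausdorffDist ((r (B (N + 1) m x) : Finset ℂ) : Set ℂ) ((s' : Finset ℂ) : Set ℂ)
        < 1 / 2 := by
      refine (h1.trans (mul_le_mul_of_nonneg_left hdist (by linarith))).trans_lt ?_
      have : D * (2 * Real.pi * (1 / N)) = (4 * Real.pi * D) / (2 * N) := by
        field_simp
        ring
      rw [this, div_lt_div_iff₀ (by positivity) (by norm_num)]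
      linarith
    obtain ⟨w, hw, hzw⟩ := exists_close _ _ (hr1 _ hB1 (B_card _ _ _)).1 hs'n _ h2 z hz
    obtain ⟨j, _, rfl⟩ := Finset.mem_image.1 hw
    have h3 := norm_e (gp m x (j + 1))
    rw [dist_eq_norm] at hzw
    have h4 := norm_sub_norm_le z (e (gp m x (j + 1)))
    have h5 := norm_sub_norm_le (e (gp m x (j + 1))) z
    rw [norm_sub_rev] at h5
    constructor <;> linarith
  -- nearby grid points have nearby images
  have hcl : ∀ c x y : ℕ → ℕ, (∀ i, x i = c i ∨ x i = c i + 1) → (∀ i, y i = c i ∨ y i = c i + 1) →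
      ∀ z ∈ r (B (N + 1) m x), rho N ≤ a z → a z ≤ 1 - rho N →
        ∃ w ∈ r (B (N + 1) m y), |a w - a z| < rho N / 2 := by
    intro c x y hx hy z hz hz1 hz2
    have hBx : (B (N + 1) m x).Nonempty := B_nonempty _ _ (by omega) _
    have hBy : (B (N + 1) m y).Nonempty := B_nonempty _ _ (by omega) _
    have hdist : Metric.hausdorffDist ((B (N + 1) m x : Finset ℂ) : Set ℂ)
        ((B (N + 1) m y : Finset ℂ) : Set ℂ) ≤ 2 * Real.pi * ((N + 1) / m) := by
      have hg : ∀ p q : ℕ → ℕ, (∀ i, p i = c i ∨ p i = c i + 1) → (∀ i, q i = c i ∨ q i = c i + 1) →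
          ∀ j, j < N + 1 → dist (e (gp m p (j + 1))) (e (gp m q (j + 1))) ≤
            2 * Real.pi * ((N + 1) / m) := by
        intro p q hp hq j hj
        refine (dist_e _ _).trans ?_
        apply mul_le_mul_of_nonneg_left _ (by positivity)
        refine (gp_near m hm0 c p q hp hq (j + 1)).trans ?_
        apply div_le_div_of_nonneg_right _ hm'.le
        exact_mod_cast hj
      apply Metric.hausdorffDist_le_of_mem_dist (by positivity)
      · intro w hw
        rw [Finset.mem_coe] at hw
        obtain ⟨j, hj, rfl⟩ := Finset.mem_image.1 hw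
        refine ⟨e (gp m y (j + 1)), ?_, hg x y hx hy j (Finset.mem_range.1 hj)⟩
        rw [Finset.mem_coe]
        exact Finset.mem_image.2 ⟨j, hj, rfl⟩
      · intro w hw
        rw [Finset.mem_coe] at hw
        obtain ⟨j, hj, rfl⟩ := Finset.mem_image.1 hw
        refine ⟨e (gp m x (j + 1)), ?_, hg y x hy hx j (Finset.mem_range.1 hj)⟩
        rw [Finset.mem_coe]
        exact Finset.mem_image.2 ⟨j, hj, rfl⟩
    have h1 := hr3' _ _ hBx (B_card _ _ _) hBy (B_card _ _ _)
    have h2 : Metric.hausdorffDist ((r (B (N + 1) m x) : Finset ℂ) : Set ℂ)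
        ((r (B (N + 1) m y) : Finset ℂ) : Set ℂ) < ε := by
      refine (h1.trans (mul_le_mul_of_nonneg_left hdist (by linarith))).trans_lt ?_
      rw [div_lt_iff₀ hε] at hm2
      have : D * (2 * Real.pi * ((N + 1) / m)) = (D * (2 * Real.pi) * (N + 1)) / m := by ring
      rw [this, div_lt_iff₀ hm']
      linarith
    obtain ⟨w, hw, hzw⟩ := exists_close _ _ (hr1 _ hBx (B_card _ _ _)).1
      (hr1 _ hBy (B_card _ _ _)).1 _ h2 z hz
    obtain ⟨h3, h4⟩ := hann x z hz
    exact ⟨w, hw, hunif z w h3 h4 hz1 hz2 hzw⟩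
  -- the parity argument
  refine parity N m hNodd (fun x => Lab N (r (B (N + 1) m x)))
    (fun y => Lab N (r (insert 1 (B N m y)))) (fun y => Lab N (B N m y)) ?_ ?_ ?_ ?_ ?_ ?_ ?_
  · intro x
    exact Lab_le _ _
  · rintro l ⟨c, hc⟩
    simp only [ind]
    rw [if_neg]
    intro h
    have hget : ∀ j, ∃ v : ℕ → ℕ, j ≤ N + 1 → v ∈ l ∧ Lab N (r (B (N + 1) m v)) = j := by
      intro j
      by_cases hj : j ≤ N + 1
      · have hmem : j ∈ ((l.map (fun x => Lab N (r (B (N + 1) m x))) : List ℕ) : Multiset ℕ) := by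
          rw [h, Multiset.mem_range]
          omega
        rw [Multiset.mem_coe, List.mem_map] at hmem
        obtain ⟨v, hv, hv2⟩ := hmem
        exact ⟨v, fun _ => ⟨hv, hv2⟩⟩
      · exact ⟨c, fun h => absurd h hj⟩
    choose v hv using hget
    apply no_full N (rho N / 2) le_rfl (fun j => r (B (N + 1) m (v j)))
    · exact (hr1 _ (B_nonempty _ _ (by omega) _) (B_card _ _ _)).2
    · intro i j hi hj z hz h1 h2
      exact hcl c (v i) (v j) (hc _ (hv i hi).1) (hc _ (hv j hj).1) z hz h1 h2
    · intro j hj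
      exact (hv j hj).2
  · intro i hi v t t'
    show Lab N (r _) = Lab N (r _)
    rw [B_deg N m hm0 i hi v t t']
  · intro x
    show Lab N (r _) = Lab N (r _)
    rw [B_first]
  · intro x
    show Lab N (r _) = Lab N (r _)
    rw [B_last N m hm0]
  · intro i hi1 hi2 x
    show Lab N (r _) = Lab N _
    rw [B_can N m i hi1 hi2, hr2 _ (B_nonempty _ _ hN0 _) (B_card _ _ _)]
  · exact can_count N m hm0 hNm

end

end V11194.Ret
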